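import Pool.Agent.Q158.AddPoset

/-!
# MP_efcf90_co: a finite additive poset without a rank
-/

namespace Pool.Agent.Results.MP_efcf90_co.NoRank

open Q158.AddPoset

/-- There is a finite additive poset that admits no rank. -/
theorem result : ∃ (A : Type) (_ : AddCommGroup A) (_ : PartialOrder A),
    Finite A ∧ IsAdditivePoset A ∧ ¬ ∃ r : A → ℕ, IsRank A r :=
  result_rank

end Pool.Agent.Results.MP_efcf90_co.NoRank
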